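import Pool.Agent.helper40.SU.SpecA

set_option autoImplicit false

namespace Pool.Agent.SU

open Finset

theorem LO2_aux (D n : ℕ) : (D * 1 ^ 2 + 4) % 32 = (D % 32 * 1 + 4) % 32 ∧
    (D * 3 ^ 2 + 4) % 32 = (D % 32 * 9 + 4) % 32 ∧
    (D * 5 ^ 2 + 4) % 32 = (D % 32 * 25 + 4) % 32 ∧
    (D * 7 ^ 2 + 4) % 32 = (D % 32 * 17 + 4) % 32 ∧ n % 32 < 32 := by
  refine ⟨by omega, by omega, by omega, by omega, by omega⟩

theorem LO2 : LO2_stmt := by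
  intro D n hD hn
  obtain ⟨h1, h3, h5, h7, -⟩ := LO2_aux D n
  have hD' : D % 32 = 3 ∨ D % 32 = 11 ∨ D % 32 = 19 ∨ D % 32 = 27 := by omega
  have hn' : n % 32 = 7 ∨ n % 32 = 15 ∨ n % 32 = 23 ∨ n % 32 = 31 := by omega
  have key : (D * 1 ^ 2 + 4) % 32 = n % 32 ∨ (D * 3 ^ 2 + 4) % 32 = n % 32 ∨
      (D * 5 ^ 2 + 4) % 32 = n % 32 ∨ (D * 7 ^ 2 + 4) % 32 = n % 32 := by
    rw [h1, h3, h5, h7]
    rcases hD' with h | h | h | h <;> rcases hn' with h' | h' | h' | h' <;> rw [h, h'] <;> decide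
  rcases key with h | h | h | h
  · exact ⟨1, by decide, h⟩
  · exact ⟨3, by decide, h⟩
  · exact ⟨5, by decide, h⟩
  · exact ⟨7, by decide, h⟩

end Pool.Agent.SU
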