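import Pool.Agent.helper40.SU.SpecA

set_option autoImplicit false

namespace Pool.Agent.SU

open Finset

/-- The members of a residue class in `[K, 2K)`. -/
theorem NPR_ap (p a b K : ℕ) (hp : 1 ≤ p) (hc : p.Coprime a) :
    ((Ico K (2 * K)).filter (fun i => p ∣ b + a * i)).card ≤ K / p + 1 := by
  classical
  rw [← Finset.card_range (K / p + 1)]
  refine Finset.card_le_card_of_injOn (fun i => (i - K) / p) ?_ ?_
  · intro i hi
    obtain ⟨h1, -⟩ := Finset.mem_filter.1 (Finset.mem_coe.1 hi)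
    obtain ⟨h2, h3⟩ := Finset.mem_Ico.1 h1
    refine Finset.mem_coe.2 (Finset.mem_range.2 ?_)
    show (i - K) / p < K / p + 1
    exact Nat.lt_succ_of_le (Nat.div_le_div_right (by omega))
  · intro i hi j hj hij
    obtain ⟨h1, h1'⟩ := Finset.mem_filter.1 (Finset.mem_coe.1 hi)
    obtain ⟨h2, h2'⟩ := Finset.mem_filter.1 (Finset.mem_coe.1 hj)
    obtain ⟨h3, -⟩ := Finset.mem_Ico.1 h1
    obtain ⟨h4, -⟩ := Finset.mem_Ico.1 h2
    have hij' : (i - K) / p = (j - K) / p := hij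
    have hd : (p : ℤ) ∣ (a : ℤ) * ((i : ℤ) - j) := by
      have e1 : (p : ℤ) ∣ ((b + a * i : ℕ) : ℤ) := by exact_mod_cast h1'
      have e2 : (p : ℤ) ∣ ((b + a * j : ℕ) : ℤ) := by exact_mod_cast h2'
      have := dvd_sub e1 e2
      push_cast at this
      have h5 : (a : ℤ) * ((i : ℤ) - j) = (b + a * i) - (b + a * j) := by ring
      rw [h5]; exact this
    have hd2 : (p : ℤ) ∣ ((i : ℤ) - j) := by
      refine IsCoprime.dvd_of_dvd_mul_left ?_ hd
      exact (Nat.isCoprime_iff_coprime.2 hc)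
    have e1 := Nat.div_add_mod (i - K) p
    have e2 := Nat.div_add_mod (j - K) p
    have f1 := Nat.mod_lt (i - K) (show 0 < p by omega)
    have f2 := Nat.mod_lt (j - K) (show 0 < p by omega)
    rw [hij'] at e1
    have h6 : |(i : ℤ) - j| < p := by
      rw [abs_lt]
      constructor <;> omega
    have h7 := Int.eq_zero_of_abs_lt_dvd hd2 h6
    omega

theorem NPR_inv (Z M : ℕ) (hZ : 1 ≤ Z) : ∑ n ∈ Ioc Z M, ((n : ℝ) ^ 2)⁻¹ ≤ (Z : ℝ)⁻¹ := by
  rcases le_or_gt Z M with h | h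
  · have := sum_Ioc_inv_sq_le_sub (α := ℝ) (k := Z) (n := M) (by omega) h
    have h2 : (0 : ℝ) ≤ (M : ℝ)⁻¹ := by positivity
    linarith
  · rw [Finset.Ioc_eq_empty (by omega), Finset.sum_empty]
    positivity

theorem NPR (hDCO : DCO_stmt) : NPR_stmt := by
  classical
  intro Z m q u₀ k₀ hZ hD K hK
  obtain ⟨-, hB⟩ := hDCO Z m q u₀ k₀ K hD hK
  have hq : 1 ≤ q := hD.q_odd.pos
  set M : ℕ := 128 * q * K with hM
  set T : ℕ → Finset (ℕ × ℕ) := fun p => (Bx q u₀ k₀ K).filter (fun x => p ∣ x.1 ∧ p ∣ x.2) with hT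
  set I : Finset ℕ := (Ioc Z M).filter (fun p => p.Coprime (64 * q)) with hI
  -- the pairs which are not primitive
  have h1 : (Bx q u₀ k₀ K).filter (fun x => ¬ x.1.Coprime x.2) ⊆ I.biUnion T := by
    intro x hx
    obtain ⟨hx1, hx2⟩ := Finset.mem_filter.1 hx
    obtain ⟨-, -, hco, hlo, -, hhi, -, -, -⟩ := hB x hx1
    have hg : Nat.gcd x.1 x.2 ≠ 1 := hx2
    obtain ⟨p, hp, hpd⟩ := Nat.exists_prime_and_dvd hg
    have hp1 : p ∣ x.1 := hpd.trans (Nat.gcd_dvd_left _ _)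
    have hp2 : p ∣ x.2 := hpd.trans (Nat.gcd_dvd_right _ _)
    have hpD : p ∣ Df m x.1 x.2 := by
      unfold Df
      refine dvd_add ((dvd_pow hp1 (by norm_num)).mul_left _) ?_
      exact dvd_pow (hp2.mul_right _) (by norm_num)
    have hp2q : ¬ p ∣ 2 * q := by
      intro h
      have := Nat.dvd_gcd hpD h
      rw [hco] at this
      exact hp.one_lt.ne' (Nat.dvd_one.1 this)
    have hZp : Z < p := by
      by_contra h
      exact hp2q (hD.small p hp (by omega))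
    have hcop : p.Coprime (64 * q) := by
      rw [hp.coprime_iff_not_dvd]
      intro h
      rcases (hp.dvd_mul).1 h with h | h
      · have : p ∣ 2 ^ 6 := by norm_num; exact h
        exact hp2q ((hp.dvd_of_dvd_pow this).mul_right _)
      · exact hp2q (h.mul_left _)
    have hx1pos : 0 < x.1 := lt_of_lt_of_le (by positivity) hlo
    refine Finset.mem_biUnion.2 ⟨p, Finset.mem_filter.2 ⟨Finset.mem_Ioc.2 ⟨hZp, ?_⟩, hcop⟩,
      Finset.mem_filter.2 ⟨hx1, hp1, hp2⟩⟩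
    exact (Nat.le_of_dvd hx1pos hp1).trans hhi
  -- the number for one `p`
  have h2 : ∀ p ∈ I, ((T p).card : ℝ) ≤ 2 * (K : ℝ) ^ 2 * ((p : ℝ) ^ 2)⁻¹ + 2 := by
    intro p hp
    obtain ⟨hp1, hp2⟩ := Finset.mem_filter.1 hp
    have hpp : 1 ≤ p := by
      have := (Finset.mem_Ioc.1 hp1).1
      omega
    have e1 : T p ⊆ ((((Ico K (2 * K)).filter (fun i => p ∣ u₀ + 64 * q * i)) ×ˢ
        ((Ico K (2 * K)).filter (fun i => p ∣ k₀ + 64 * q * i))).image
        (fun x => (u₀ + 64 * q * x.1, k₀ + 64 * q * x.2))) := by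
      intro x hx
      obtain ⟨hx1, hx2, hx3⟩ := Finset.mem_filter.1 hx
      unfold Bx at hx1
      obtain ⟨y, hy, rfl⟩ := Finset.mem_image.1 hx1
      obtain ⟨hy1, hy2⟩ := Finset.mem_product.1 hy
      exact Finset.mem_image.2 ⟨y, Finset.mem_product.2 ⟨Finset.mem_filter.2 ⟨hy1, hx2⟩,
        Finset.mem_filter.2 ⟨hy2, hx3⟩⟩, rfl⟩
    have e2 : (T p).card ≤ (K / p + 1) * (K / p + 1) := by
      refine (Finset.card_le_card e1).trans (Finset.card_image_le.trans ?_)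
      rw [Finset.card_product]
      exact Nat.mul_le_mul (NPR_ap p (64 * q) u₀ K hpp hp2) (NPR_ap p (64 * q) k₀ K hpp hp2)
    have hp0 : (0 : ℝ) < p := by exact_mod_cast hpp
    have e3 : ((K / p : ℕ) : ℝ) ≤ (K : ℝ) / p := Nat.cast_div_le
    have e3' : (0 : ℝ) ≤ ((K / p : ℕ) : ℝ) := Nat.cast_nonneg _
    have e4 : ((T p).card : ℝ) ≤ (((K / p : ℕ) : ℝ) + 1) * (((K / p : ℕ) : ℝ) + 1) := by
      exact_mod_cast e2
    have e5 : (K : ℝ) ^ 2 * ((p : ℝ) ^ 2)⁻¹ = ((K : ℝ) / p) ^ 2 := by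
      rw [div_pow, div_eq_mul_inv]
    have e6 : ((K / p : ℕ) : ℝ) ^ 2 ≤ ((K : ℝ) / p) ^ 2 := pow_le_pow_left₀ e3' e3 2
    rw [mul_assoc, e5]
    nlinarith [sq_nonneg (((K / p : ℕ) : ℝ) - 1)]
  have h3 : (((Bx q u₀ k₀ K).filter (fun x => ¬ x.1.Coprime x.2)).card : ℝ) ≤
      2 * (K : ℝ) ^ 2 * (Z : ℝ)⁻¹ + 2 * M := by
    calc (((Bx q u₀ k₀ K).filter (fun x => ¬ x.1.Coprime x.2)).card : ℝ)
        ≤ ((I.biUnion T).card : ℝ) := by exact_mod_cast Finset.card_le_card h1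
      _ ≤ ∑ p ∈ I, ((T p).card : ℝ) := by exact_mod_cast Finset.card_biUnion_le
      _ ≤ ∑ p ∈ I, (2 * (K : ℝ) ^ 2 * ((p : ℝ) ^ 2)⁻¹ + 2) := Finset.sum_le_sum h2
      _ ≤ ∑ p ∈ Ioc Z M, (2 * (K : ℝ) ^ 2 * ((p : ℝ) ^ 2)⁻¹ + 2) :=
          Finset.sum_le_sum_of_subset_of_nonneg (Finset.filter_subset _ _)
            (fun _ _ _ => by positivity)
      _ = 2 * (K : ℝ) ^ 2 * ∑ p ∈ Ioc Z M, ((p : ℝ) ^ 2)⁻¹ + (Ioc Z M).card * 2 := by
          rw [Finset.sum_add_distrib, Finset.mul_sum, Finset.sum_const, nsmul_eq_mul]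
      _ ≤ 2 * (K : ℝ) ^ 2 * (Z : ℝ)⁻¹ + 2 * M := by
          have a1 := mul_le_mul_of_nonneg_left (NPR_inv Z M (by omega))
            (show (0 : ℝ) ≤ 2 * (K : ℝ) ^ 2 by positivity)
          have a2 : ((Ioc Z M).card : ℝ) ≤ M := by
            rw [Nat.card_Ioc]
            exact_mod_cast Nat.sub_le _ _
          linarith
  have h4 : ((Bx q u₀ k₀ K).card : ℝ) = ((Px q u₀ k₀ K).card : ℝ) +
      (((Bx q u₀ k₀ K).filter (fun x => ¬ x.1.Coprime x.2)).card : ℝ) := by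
    unfold Px
    have := Finset.card_filter_add_card_filter_not (s := Bx q u₀ k₀ K)
      (fun x : ℕ × ℕ => x.1.Coprime x.2)
    exact_mod_cast this.symm
  have hMr : (M : ℝ) = 128 * q * K := by rw [hM]; push_cast; ring
  have hZ0 : (0 : ℝ) < Z := by exact_mod_cast (show 0 < Z by omega)
  have h5 : 2 * (K : ℝ) ^ 2 * (Z : ℝ)⁻¹ ≤ 8 * (K : ℝ) ^ 2 / Z := by
    rw [div_eq_mul_inv]
    have : (0 : ℝ) ≤ (K : ℝ) ^ 2 * (Z : ℝ)⁻¹ := by positivity
    linarith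
  have h6 : (0 : ℝ) ≤ (q : ℝ) * K := by positivity
  rw [h4]
  rw [hMr] at h3
  nlinarith

end Pool.Agent.SU
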