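import Pool.Agent.helper40.SU.SpecB

set_option autoImplicit false

namespace Pool.Agent.SU

open Finset

/-- `τ(n) ≤ 2^Ω(n)` and `ω(n) ≤ Ω(n)`. -/
theorem TAU_om (n : ℕ) (hn : n ≠ 0) :
    n.divisors.card ≤ 2 ^ (ArithmeticFunction.cardFactors n) ∧
      om n ≤ ArithmeticFunction.cardFactors n := by
  have h1 : ArithmeticFunction.cardFactors n = ∑ p ∈ n.primeFactors, n.factorization p := by
    rw [ArithmeticFunction.cardFactors_eq_sum_factorization]
    rfl
  constructor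
  · rw [h1, Nat.card_divisors hn, ← Finset.prod_pow_eq_pow_sum]
    exact Finset.prod_le_prod' (fun p _ => Nat.succ_le_of_lt Nat.lt_two_pow_self)
  · rw [h1]
    unfold om
    rw [Finset.card_eq_sum_ones]
    refine Finset.sum_le_sum (fun p hp => ?_)
    obtain ⟨hpp, hpd, -⟩ := Nat.mem_primeFactors.1 hp
    exact (hpp.dvd_iff_one_le_factorization hn).1 hpd

theorem TAU (hOMG : OMG_stmt) : TAU_stmt := by
  classical
  intro θ hθ
  obtain ⟨Z₀, hZ₀⟩ := hOMG θ 40 hθ (by norm_num)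
  refine ⟨Z₀, fun Z hZ q hS => ?_⟩
  have h1 : ∀ n : ℕ, 1 ≤ n → n.Coprime (2 * q) → (n.divisors.card : ℝ) ≤ (n : ℝ) ^ θ ∧
      (40 : ℝ) ^ (om n) ≤ (n : ℝ) ^ θ := by
    intro n hn hc
    have hn0 : n ≠ 0 := by omega
    have h2 := hZ₀ n hn0 (by
      intro p hp hpn
      by_contra h
      have h3 := hS p hp (by omega)
      have h4 := Nat.dvd_gcd hpn h3
      rw [hc] at h4
      exact hp.one_lt.ne' (Nat.dvd_one.1 h4))
    obtain ⟨h5, h6⟩ := TAU_om n hn0
    constructor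
    · refine le_trans ?_ h2
      calc (n.divisors.card : ℝ) ≤ ((2 ^ (ArithmeticFunction.cardFactors n) : ℕ) : ℝ) := by
            exact_mod_cast h5
        _ = (2 : ℝ) ^ (ArithmeticFunction.cardFactors n) := by push_cast; rfl
        _ ≤ (40 : ℝ) ^ (ArithmeticFunction.cardFactors n) :=
            pow_le_pow_left₀ (by norm_num) (by norm_num) _
    · refine le_trans ?_ h2
      exact pow_le_pow_right₀ (by norm_num) h6
  refine ⟨h1, fun N hN => ?_⟩
  set F : Finset ℕ := N.divisors.filter (fun f => f.Coprime (2 * q)) with hF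
  set L : ℕ := F.lcm id with hL
  have hLN : L ∣ N := Finset.lcm_dvd (fun f hf =>
    Nat.dvd_of_mem_divisors (Finset.mem_filter.1 hf).1)
  have hL0 : L ≠ 0 := fun h => by
    rw [h] at hLN
    have := Nat.eq_zero_of_zero_dvd hLN
    omega
  have hLc : L.Coprime (2 * q) := by
    have h2 : L ∣ ∏ f ∈ F, id f := Finset.lcm_dvd (fun f hf => Finset.dvd_prod_of_mem id hf)
    have h3 : (∏ f ∈ F, id f).Coprime (2 * q) :=
      Nat.Coprime.prod_left (fun f hf => (Finset.mem_filter.1 hf).2)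
    exact h3.coprime_dvd_left h2
  have hFL : F ⊆ L.divisors := by
    intro f hf
    exact Nat.mem_divisors.2 ⟨Finset.dvd_lcm (f := id) hf, hL0⟩
  have hL1 : 1 ≤ L := Nat.one_le_iff_ne_zero.2 hL0
  calc (F.card : ℝ) ≤ (L.divisors.card : ℝ) := by exact_mod_cast Finset.card_le_card hFL
    _ ≤ (L : ℝ) ^ θ := (h1 L hL1 hLc).1
    _ ≤ (N : ℝ) ^ θ := Real.rpow_le_rpow (Nat.cast_nonneg _)
        (by exact_mod_cast Nat.le_of_dvd (by omega) hLN) hθ.le

end Pool.Agent.SU
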